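import Pool.Agent.LAT.StmtsM

set_option autoImplicit false

namespace Pool.Agent.LAT.H90

open Matrix Finset

/-- columns of `B` selected by `f` at the pivots, unit vectors otherwise -/
def NN {m : ℕ} (B : Matrix (Fin m) (Fin m) ℤ) (f : Fin m → Fin m) : Matrix (Fin m) (Fin m) ℤ :=
  Matrix.of fun a i => if B i i = 0 then (if a = i then 1 else 0) else B a (f i)

/-- the remaining columns -/
def WW {m : ℕ} (B : Matrix (Fin m) (Fin m) ℤ) (f : Fin m → Fin m) : Matrix (Fin m) (Fin m) ℤ :=
  Matrix.of fun a c => if c ∈ (univ.filter fun i => ¬ B i i = 0).image f then 0 else B a c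

theorem gg_eq {m : ℕ} (B : Matrix (Fin m) (Fin m) ℤ) (f : Fin m → Fin m)
    (hf : Set.InjOn f {i | ¬ B i i = 0}) :
    GG B = NN B f * (NN B f)ᵀ + WW B f * (WW B f)ᵀ := by
  ext a b
  have e1 : GG B a b = ∑ c, B a c * B b c + (if a = b then (if B a a = 0 then 1 else 0) else 0) := by
    simp only [GG, EE, Matrix.add_apply, Matrix.mul_apply, Matrix.transpose_apply,
      Matrix.diagonal_apply]
  have e2 : (NN B f * (NN B f)ᵀ) a b = ∑ i, NN B f a i * NN B f b i := by
    simp only [Matrix.mul_apply, Matrix.transpose_apply]
  have e3 : (WW B f * (WW B f)ᵀ) a b = ∑ c, WW B f a c * WW B f b c := by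
    simp only [Matrix.mul_apply, Matrix.transpose_apply]
  rw [Matrix.add_apply, e1, e2, e3]
  have e4 : ∑ i, NN B f a i * NN B f b i = (if a = b then (if B a a = 0 then 1 else 0) else 0)
      + ∑ c ∈ (univ.filter fun i => ¬ B i i = 0).image f, B a c * B b c := by
    rw [← Finset.sum_filter_add_sum_filter_not univ (fun i => B i i = 0), Finset.sum_image]
    · congr 1
      · have h1 : ∀ i ∈ univ.filter (fun i => B i i = 0), NN B f a i * NN B f b i
            = (if a = i then 1 else 0) * (if b = i then 1 else 0) := by
          intro i hi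
          have h2 : B i i = 0 := (Finset.mem_filter.1 hi).2
          simp only [NN, Matrix.of_apply, h2, if_true]
        rw [Finset.sum_congr rfl h1, Finset.sum_filter]
        by_cases hab : a = b
        · subst hab
          simp only [if_true]
          rw [Finset.sum_eq_single a]
          · simp
          · intro i _ hi
            simp [Ne.symm hi]
          · simp
        · simp only [hab, if_false]
          refine Finset.sum_eq_zero fun i _ => ?_
          by_cases hai : a = i
          · subst hai
            simp [Ne.symm hab]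
          · simp [hai]
      · refine Finset.sum_congr rfl fun i hi => ?_
        have h2 : ¬ B i i = 0 := (Finset.mem_filter.1 hi).2
        simp only [NN, Matrix.of_apply, h2, if_false]
    · intro i hi j hj hij
      have hi' : ¬ B i i = 0 := by simpa using hi
      have hj' : ¬ B j j = 0 := by simpa using hj
      exact hf hi' hj' hij
  have e5 : ∑ c, WW B f a c * WW B f b c + ∑ c ∈ (univ.filter fun i => ¬ B i i = 0).image f,
      B a c * B b c = ∑ c, B a c * B b c := by
    rw [← Finset.sum_filter_add_sum_filter_not univ
      (fun c => c ∈ (univ.filter fun i => ¬ B i i = 0).image f) (fun c => WW B f a c * WW B f b c),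
      ← Finset.sum_filter_add_sum_filter_not univ
      (fun c => c ∈ (univ.filter fun i => ¬ B i i = 0).image f) (fun c => B a c * B b c)]
    have h1 : ∑ c ∈ univ.filter (fun c => c ∈ (univ.filter fun i => ¬ B i i = 0).image f),
        WW B f a c * WW B f b c = 0 := by
      refine Finset.sum_eq_zero fun c hc => ?_
      have h2 := (Finset.mem_filter.1 hc).2
      simp only [WW, Matrix.of_apply, if_pos h2, mul_zero]
    have h3 : ∑ c ∈ univ.filter (fun c => ¬ c ∈ (univ.filter fun i => ¬ B i i = 0).image f),
        WW B f a c * WW B f b c =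
        ∑ c ∈ univ.filter (fun c => ¬ c ∈ (univ.filter fun i => ¬ B i i = 0).image f),
        B a c * B b c := by
      refine Finset.sum_congr rfl fun c hc => ?_
      have h2 := (Finset.mem_filter.1 hc).2
      simp only [WW, Matrix.of_apply, if_neg h2]
    have h4 : univ.filter (fun c => c ∈ (univ.filter fun i => ¬ B i i = 0).image f)
        = (univ.filter fun i => ¬ B i i = 0).image f := by
      ext c; simp
    rw [h1, h3, h4]; ring
  rw [e4, ← e5]; ring

theorem key (hDMO : DmoStmt) {m : ℕ} (B : Matrix (Fin m) (Fin m) ℤ) (f : Fin m → Fin m)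
    (hf : Set.InjOn f {i | ¬ B i i = 0}) (hpos : 0 ≤ (GG B).det) :
    (NN B f).det ^ 2 ≤ (GG B).det := by
  by_cases h0 : (NN B f).det = 0
  · rw [h0]; simpa using hpos
  set c : ℤ →+* ℝ := Int.castRingHom ℝ with hc
  set NR : Matrix (Fin m) (Fin m) ℝ := (NN B f).map c with hNR
  set WR : Matrix (Fin m) (Fin m) ℝ := (WW B f).map c with hWR
  have hdet : NR.det = ((NN B f).det : ℝ) := by
    rw [hNR]
    have := (RingHom.map_det c (NN B f)).symm
    simpa using this
  have hunit : IsUnit NR := by
    rw [Matrix.isUnit_iff_isUnit_det, hdet]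
    exact (Int.cast_ne_zero.2 h0).isUnit
  have h1 : (NR * NRᵀ).PosDef := by
    have := Matrix.PosDef.mul_conjTranspose_self NR (Matrix.vecMul_injective_iff_isUnit.2 hunit)
    rwa [Matrix.conjTranspose_eq_transpose_of_trivial] at this
  have h2 : (WR * WRᵀ).PosSemidef := by
    have := Matrix.posSemidef_self_mul_conjTranspose WR
    rwa [Matrix.conjTranspose_eq_transpose_of_trivial] at this
  have h3 : (GG B).map c = NR * NRᵀ + WR * WRᵀ := by
    rw [gg_eq B f hf, hNR, hWR]
    rw [Matrix.map_add c (fun a b => map_add c a b), Matrix.map_mul, Matrix.map_mul,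
      Matrix.transpose_map, Matrix.transpose_map]
  have h4 := hDMO m (NR * NRᵀ) ((GG B).map c) h1 (by rw [h3, add_sub_cancel_left]; exact h2)
  rw [Matrix.det_mul, Matrix.det_transpose, hdet] at h4
  have h5 : ((GG B).map c).det = ((GG B).det : ℝ) := by
    have := (RingHom.map_det c (GG B)).symm
    simpa using this
  rw [h5] at h4
  have h6 : (((NN B f).det ^ 2 : ℤ) : ℝ) ≤ ((GG B).det : ℝ) := by
    rw [Int.cast_pow, sq]; exact h4
  exact_mod_cast h6

theorem bnd (hDMO : DmoStmt) (hGGP : GgpStmt) : BndStmt := by
  rintro m L D B ⟨hB, hB0, _, hdet⟩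
  -- positivity of the determinant
  have hG : 1 ≤ (GG B).det := by
    have h1 := hGGP m B hB m le_rfl
    have h2 : LB (GG B) m = GG B := by
      ext i j; simp [LB]
    rwa [h2] at h1
  have hpiv1 : 1 ≤ piv B := by
    rw [piv, Nat.one_le_iff_ne_zero, Ne, Finset.card_eq_zero, Finset.filter_eq_empty_iff]
    intro hcon
    apply hB0
    ext k i
    have h1 : B k k = 0 := by
      by_contra h2
      exact hcon (Finset.mem_univ k) h2
    exact hB.zero k h1 i
  have hpivm : piv B ≤ m := by
    have := Finset.card_filter_le (univ : Finset (Fin m)) (fun k => B k k ≠ 0)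
    simpa [piv] using this
  have hD : 1 ≤ D := by
    by_contra h0
    have h1 : D = 0 := by omega
    rw [h1] at hdet
    have h2 : ((0:ℕ) : ℤ) ^ piv B = 0 := by
      rw [Nat.cast_zero, zero_pow (by omega)]
    rw [h2] at hdet
    omega
  refine ⟨hD, ?_⟩
  have hDZ : (1:ℤ) ≤ D := by exact_mod_cast hD
  set X : ℤ := (D:ℤ) ^ m with hX
  have hX1 : 1 ≤ X := one_le_pow₀ hDZ
  have hFX : (GG B).det ≤ X := hdet.trans (pow_le_pow_right₀ hDZ hpivm)
  have hkey : ∀ f : Fin m → Fin m, Set.InjOn f {i | ¬ B i i = 0} → (NN B f).det ^ 2 ≤ X :=
    fun f hf => (key hDMO B f hf (by omega)).trans hFX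
  -- the triangular matrix
  set T := NN B id with hT
  have hTdiag : ∀ i, T i i = if B i i = 0 then 1 else B i i := by
    intro i
    simp only [hT, NN, Matrix.of_apply, id]
    by_cases h : B i i = 0
    · simp [h]
    · simp [h]
  have hTd1 : ∀ i, 1 ≤ T i i := by
    intro i
    rw [hTdiag]
    split_ifs with h
    · exact le_rfl
    · have := hB.nonneg i
      omega
  have hTlow : ∀ i j, i < j → T i j = 0 := by
    intro i j hij
    simp only [hT, NN, Matrix.of_apply, id]
    split_ifs with h h2
    · exact absurd h2 hij.ne
    · rfl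
    · exact hB.tri i j hij
  have hTdet : T.det = ∏ i, T i i := by
    refine Matrix.det_of_isLowerTriangular T ?_
    intro i j hij
    exact hTlow i j hij
  have hTdetpos : 1 ≤ T.det := by
    rw [hTdet]
    have : 0 < ∏ i, T i i := Finset.prod_pos fun i _ => by
      have := hTd1 i
      omega
    omega
  have hTsq : T.det ^ 2 ≤ X := hkey id (fun _ _ _ _ h => h)
  have hTii : ∀ i, T i i ≤ T.det := by
    intro i
    rw [hTdet, ← Finset.mul_prod_erase univ (fun i => T i i) (Finset.mem_univ i)]
    have h1 : 0 < ∏ j ∈ univ.erase i, T j j := Finset.prod_pos fun j _ => by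
      have := hTd1 j
      omega
    have h2 := hTd1 i
    nlinarith
  have hTii2 : ∀ i, (T i i) ^ 2 ≤ X := by
    intro i
    have h1 := hTii i
    have h2 := hTd1 i
    nlinarith
  have hTij2 : ∀ i j, (T i j) ^ 2 ≤ X := by
    intro i j
    rcases lt_trichotomy i j with h | h | h
    · rw [hTlow i j h]; nlinarith
    · rw [h]; exact hTii2 j
    · have h1 : |T i j| ≤ T j j := by
        simp only [hT, NN, Matrix.of_apply, id]
        by_cases h2 : B j j = 0
        · simp [h2, h.ne']
        · have h3 := hB.nonneg j
          have h4 := hB.red i j h (by omega)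
          simp only [h2, if_false]
          rw [abs_of_nonneg h4.1]
          exact h4.2.le
      have h2 := sq_abs (T i j)
      have h3 := abs_nonneg (T i j)
      have h4 := hTii2 j
      nlinarith
  intro i j
  have hm1 : (1:ℤ) ≤ m := by
    have : 0 < m := lt_of_le_of_lt (Nat.zero_le _) i.2
    exact_mod_cast this
  by_cases hj : B j j = 0
  · -- a non-pivot column
    set h : Fin m → ℤ := fun a => B a j with hh
    have hcr : ∀ k, (T.cramer h k) ^ 2 ≤ X := by
      intro k
      rw [Matrix.cramer_apply]
      by_cases hk : B k k = 0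
      · have h0 : (T.updateCol k h).det = 0 := by
          refine Matrix.det_eq_zero_of_row_eq_zero k fun l => ?_
          by_cases hl : l = k
          · subst hl
            rw [Matrix.updateCol_self]
            exact hB.zero l hk j
          · rw [Matrix.updateCol_ne hl]
            simp only [hT, NN, Matrix.of_apply, id]
            split_ifs with h1 h2
            · exact absurd h2.symm hl
            · rfl
            · exact hB.zero k hk l
        rw [h0]; nlinarith
      · have h0 : T.updateCol k h = NN B (Function.update id k j) := by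
          ext a l
          by_cases hl : l = k
          · subst hl
            rw [Matrix.updateCol_self]
            simp only [NN, Matrix.of_apply, hk, if_false, Function.update_self, hh]
          · rw [Matrix.updateCol_ne hl]
            simp only [hT, NN, Matrix.of_apply, id, Function.update_of_ne hl]
        rw [h0]
        refine hkey _ ?_
        intro a ha b hb hab
        have ha' : ¬ B a a = 0 := ha
        have hb' : ¬ B b b = 0 := hb
        by_cases h1 : a = k
        · by_cases h2 : b = k
          · rw [h1, h2]
          · rw [h1, Function.update_self, Function.update_of_ne h2, id] at hab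
            exact absurd (hab ▸ hj) hb'
        · by_cases h2 : b = k
          · rw [h2, Function.update_self, Function.update_of_ne h1, id] at hab
            exact absurd (hab ▸ hj) ha'
          · rwa [Function.update_of_ne h1, Function.update_of_ne h2] at hab
    have hmul := congrFun (Matrix.mulVec_cramer T h) i
    have e1 : (T *ᵥ T.cramer h) i = ∑ k, T i k * T.cramer h k := rfl
    rw [e1, Pi.smul_apply, smul_eq_mul] at hmul
    have hterm : ∀ k, |T i k * T.cramer h k| ≤ X := by
      intro k
      have h1 := hTij2 i k
      have h2 := hcr k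
      have h3 : (T i k * T.cramer h k) ^ 2 ≤ X ^ 2 := by
        rw [mul_pow, sq X]
        exact mul_le_mul h1 h2 (sq_nonneg _) (by omega)
      exact abs_le_of_sq_le_sq h3 (by omega)
    have hsum : |T.det * h i| ≤ m * X := by
      rw [← hmul]
      calc |∑ k, T i k * T.cramer h k| ≤ ∑ k, |T i k * T.cramer h k| :=
            Finset.abs_sum_le_sum_abs _ _
        _ ≤ ∑ _k : Fin m, X := Finset.sum_le_sum fun k _ => hterm k
        _ = m * X := by simp
    rw [abs_mul, abs_of_pos (by omega : 0 < T.det)] at hsum
    have h5 := abs_nonneg (h i)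
    show |h i| ≤ m * X
    nlinarith
  · -- a pivot column
    have hjpos := hB.nonneg j
    have hTjj : T j j = B j j := by rw [hTdiag]; simp [hj]
    have h1 : |B i j| ≤ B j j := by
      rcases lt_trichotomy i j with h | h | h
      · rw [hB.tri i j h, abs_zero]; exact hjpos
      · rw [h, abs_of_nonneg hjpos]
      · have h4 := hB.red i j h (by omega)
        rw [abs_of_nonneg h4.1]; exact h4.2.le
    have h2 := hTii2 j
    have h3 := hTd1 j
    rw [hTjj] at h2 h3
    have h4 : B j j ≤ X := by nlinarith
    calc |B i j| ≤ B j j := h1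
      _ ≤ X := h4
      _ ≤ m * X := by nlinarith

end Pool.Agent.LAT.H90
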